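import Mathlib
import Pool.Agent.H.MP_3a3e96_an.A

namespace Pool.Agent.Results.MP_3a3e96_an.Yes

open Set Filter Topology Real

/-- Right-hand side of the sinusoidal Winfree model. -/
noncomputable def rhs {N : ℕ} (κ : ℝ) (w x : Fin N → ℝ) (i : Fin N) : ℝ :=
  w i - κ / N * ∑ j, (1 + cos (x j)) * sin (x i)

/-- `θ` solves the model on `[0, ∞)` with initial datum `x₀`. -/
def IsSol {N : ℕ} (κ : ℝ) (w x₀ : Fin N → ℝ) (θ : ℝ → Fin N → ℝ) : Prop :=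
  θ 0 = x₀ ∧ ∀ t, 0 ≤ t → ∀ i, HasDerivWithinAt (fun s => θ s i) (rhs κ w (θ t) i) (Ici 0) t

/-- Oscillator death on `B`. -/
def Death {N : ℕ} (B : Finset (Fin N)) (θ : ℝ → Fin N → ℝ) : Prop :=
  ∀ i ∈ B, ∃ M : ℝ, ∀ t, 0 ≤ t → |θ t i| ≤ M

/-- Oscillator locking on `C`. -/
def Locking {N : ℕ} (C : Finset (Fin N)) (θ : ℝ → Fin N → ℝ) : Prop :=
  (∀ i ∈ C, ∀ j ∈ C, ∃ M : ℝ, ∀ t, 0 ≤ t → |θ t i - θ t j| ≤ M) ∧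
    ∀ i ∈ C, ¬ Tendsto (fun t => θ t i / t) atTop (𝓝 0)

theorem result : ∃ ρ₁ ρ₂ γ κ : ℝ, ρ₁ ∈ Ioc (0 : ℝ) 1 ∧ ρ₂ ∈ Ioc (0 : ℝ) 1 ∧ γ ∈ Ioc (0 : ℝ) 1 ∧
    ρ₁ + ρ₂ < 1 ∧ 0 < κ ∧
    ∀ (N : ℕ), 1 ≤ N → ∀ (w : Fin N → ℝ) (B C : Finset (Fin N)), Disjoint B C →
      ρ₁ * N ≤ B.card → ρ₂ * N ≤ C.card → (∀ i ∈ B, w i ∈ Icc (-γ) γ) →
      (∀ i ∈ C, w i ∈ Icc (1 - γ) (1 + γ)) →
      ∃ x₀ : Fin N → ℝ, (∃ θ, IsSol κ w x₀ θ) ∧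
        ∀ θ, IsSol κ w x₀ θ → Death B θ ∧ Locking C θ :=
  Pool.Agent.H.MP_3a3e96_an.main

end Pool.Agent.Results.MP_3a3e96_an.Yes
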